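import Mathlib
import Pool.Agent.MP_f6b137_pr.H26.Fin

set_option autoImplicit false
open MeasureTheory ProbabilityTheory Filter Topology

namespace Pool.Agent.Results.MP_f6b137_pr.SmoothNoCLT

/-- A weight on `[-1,1]`, continuous, smooth and positive except at the left end point, for which
the number of real zeros of the random orthogonal polynomial has no Gaussian limit, whatever the
centering and scaling. -/
theorem result :
    ∃ w : ℝ → ℝ, Continuous w ∧ (∀ i : ℕ, ContDiffOn ℝ i w (Set.Ioi (-1))) ∧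
      (∀ x, -1 < x → 0 < w x) ∧ w (-1) = 0 ∧
      (∃ p : ℕ → Polynomial ℝ, (∀ k, (p k).natDegree = k) ∧ (∀ k, 0 < (p k).leadingCoeff) ∧
        ∀ j k, ∫ x in (-1 : ℝ)..1, (p j).eval x * (p k).eval x * w x
          = if j = k then (1 : ℝ) else 0) ∧
      ∀ p : ℕ → Polynomial ℝ, (∀ k, (p k).natDegree = k) → (∀ k, 0 < (p k).leadingCoeff) →
        (∀ j k, ∫ x in (-1 : ℝ)..1, (p j).eval x * (p k).eval x * w x
          = if j = k then (1 : ℝ) else 0) →
      ∀ (Ω : Type) [MeasurableSpace Ω] (P : Measure Ω) [IsProbabilityMeasure P]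
        (a : ℕ → Ω → ℝ), (∀ k, P.map (a k) = gaussianReal 0 1) → iIndepFun a P →
      ∀ N : ℕ → Ω → ℝ, (∀ n ω, N n ω =
        (((∑ k ∈ Finset.range (n + 1), Polynomial.C (a k ω) * p k).roots.toFinset.card : ℕ) : ℝ)) →
      (∀ n, AEMeasurable (N n) P) ∧
      ∀ m σ : ℕ → ℝ, ¬ TendstoInDistribution (fun n ω => (N n ω - m n) / σ n) atTop id
        (fun _ => P) (gaussianReal 0 1) := by
  obtain ⟨w, h1, h2, h3, h4, h5, h6⟩ := Pool.Agent.MP_f6b137_pr.H26.final
  refine ⟨w, h1, h2, h3, h4, h5, fun p a1 a2 a3 Ω _ P _ a b1 b2 N hN => ?_⟩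
  obtain ⟨c1, -, c3⟩ := h6 p a1 a2 a3 Ω P a b1 b2 N hN
  exact ⟨c1, c3⟩

end Pool.Agent.Results.MP_f6b137_pr.SmoothNoCLT
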