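import Mathlib
import Pool.Agent.MP_f6b137_pr.H74.All

set_option autoImplicit false
open MeasureTheory ProbabilityTheory Filter Topology

namespace Pool.Agent.Results.MP_f6b137_pr.VarDoubling

/-- For doubling measures with almost everywhere positive density, the variance of the number of
real zeros of the random orthogonal polynomial is asymptotic to `c n`, with a universal `c > 0`. -/
theorem result :
    ∃ c : ℝ, 0 < c ∧ ∀ (ν : Measure ℝ) (α β : ℝ), α < β → IsFiniteMeasure ν → ν ≪ volume →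
      ν ((Set.Icc α β)ᶜ) = 0 → volume.restrict (Set.Icc α β) ≪ ν →
      (∃ L : NNReal, ∀ x ∈ Set.Icc α β, ∀ r : ℝ, 0 < r →
        ν (Metric.ball x (2 * r)) ≤ L * ν (Metric.ball x r)) →
      ∀ p : ℕ → Polynomial ℝ, (∀ k, (p k).natDegree = k) → (∀ k, 0 < (p k).leadingCoeff) →
        (∀ j k, ∫ x, (p j).eval x * (p k).eval x ∂ν = if j = k then (1 : ℝ) else 0) →
      ∀ (Ω : Type) [MeasurableSpace Ω] (P : Measure Ω) [IsProbabilityMeasure P]
        (a : ℕ → Ω → ℝ), (∀ k, P.map (a k) = gaussianReal 0 1) → iIndepFun a P →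
      ∀ N : ℕ → Ω → ℝ, (∀ n ω, N n ω =
        (((∑ k ∈ Finset.range (n + 1), Polynomial.C (a k ω) * p k).roots.toFinset.card : ℕ) : ℝ)) →
      (∀ n, AEMeasurable (N n) P) ∧
      Tendsto (fun n : ℕ => variance (N n) P / (n : ℝ)) atTop (𝓝 c) := by
  obtain ⟨c, hc, h⟩ := Pool.Agent.MP_f6b137_pr.H74.final
  refine ⟨c, hc, fun ν α β h1 h2 h3 h4 h5 h6 p h7 _ h8 Ω _ P _ a h9 h10 N hN => ?_⟩
  obtain ⟨c1, c2, -⟩ := h ν α β h1 h2 h3 h4 h5 h6 p h7 h8 Ω P a h9 h10 N hN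
  exact ⟨c1, c2⟩

end Pool.Agent.Results.MP_f6b137_pr.VarDoubling
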